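import Mathlib

/-!
The growth of a sequence with a lower bound by its averages.
-/

set_option autoImplicit false
set_option linter.all false

open Finset Filter Topology

namespace Pool.Agent.Q126.PP

theorem step_rpow {i : ℕ} (hi : 1 ≤ i) {θ : ℝ} (h0 : 0 < θ) (h1 : θ ≤ 1) :
    ((i : ℝ) + 1) ^ θ - (i : ℝ) ^ θ ≤ θ * (i : ℝ) ^ (θ - 1) := by
  have hi0 : (0 : ℝ) < i := by exact_mod_cast hi
  have h2 : (1 + 1 / (i : ℝ)) ^ θ ≤ 1 + θ * (1 / (i : ℝ)) := by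
    apply rpow_one_add_le_one_add_mul_self _ h0.le h1
    have : (0 : ℝ) ≤ 1 / (i : ℝ) := by positivity
    linarith
  have h3 : (i : ℝ) + 1 = i * (1 + 1 / i) := by
    field_simp
  have h4 : ((i : ℝ) + 1) ^ θ = (i : ℝ) ^ θ * (1 + 1 / (i : ℝ)) ^ θ := by
    rw [h3, Real.mul_rpow hi0.le (by positivity)]
  have h5 : (i : ℝ) ^ (θ - 1) = (i : ℝ) ^ θ / i := by
    rw [Real.rpow_sub hi0, Real.rpow_one]
  rw [h4, h5]
  have h6 : (0 : ℝ) < (i : ℝ) ^ θ := Real.rpow_pos_of_pos hi0 _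
  calc (i : ℝ) ^ θ * (1 + 1 / (i : ℝ)) ^ θ - (i : ℝ) ^ θ
      ≤ (i : ℝ) ^ θ * (1 + θ * (1 / (i : ℝ))) - (i : ℝ) ^ θ := by
        have := mul_le_mul_of_nonneg_left h2 h6.le
        linarith
    _ = θ * ((i : ℝ) ^ θ / i) := by
        field_simp
        ring

theorem sum_rpow {θ : ℝ} (h0 : 0 < θ) (h1 : θ ≤ 1) {a b : ℕ} (ha : 1 ≤ a) (hab : a ≤ b) :
    ((b : ℝ) ^ θ - (a : ℝ) ^ θ) / θ ≤ ∑ i ∈ Ico a b, (i : ℝ) ^ (θ - 1) := by
  induction b, hab using Nat.le_induction with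
  | base => simp
  | succ n hn ih =>
    rw [Finset.sum_Ico_succ_top hn]
    have h2 := step_rpow (i := n) (by omega) h0 h1
    have h3 : (((n + 1 : ℕ) : ℝ) ^ θ - (a : ℝ) ^ θ) / θ =
        ((n : ℝ) ^ θ - (a : ℝ) ^ θ) / θ + (((n : ℝ) + 1) ^ θ - (n : ℝ) ^ θ) / θ := by
      push_cast
      ring
    have h4 : (((n : ℝ) + 1) ^ θ - (n : ℝ) ^ θ) / θ ≤ (n : ℝ) ^ (θ - 1) := by
      rw [div_le_iff₀ h0]
      linarith
    rw [h3]
    linarith

theorem eventually_rpow {γ θ : ℝ} (h0 : 0 < θ) (h1 : θ < γ) (J : ℕ) :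
    ∀ᶠ j : ℕ in atTop, (j : ℝ) ^ θ ≤
      γ / θ * (((j + 1 - J : ℕ) : ℝ) ^ θ - (J : ℝ) ^ θ) := by
  have hγ : 0 < γ := h0.trans h1
  have t1 : Tendsto (fun j : ℕ => (((j + 1 - J : ℕ) : ℝ) / j) ^ θ - ((J : ℝ) / j) ^ θ) atTop
      (𝓝 (1 ^ θ - 0 ^ θ)) := by
    refine Tendsto.sub ?_ ?_
    · refine Tendsto.rpow_const ?_ (Or.inr h0.le)
      have t2 : Tendsto (fun j : ℕ => 1 - ((J : ℝ) - 1) / j) atTop (𝓝 (1 - 0)) :=
        tendsto_const_nhds.sub (tendsto_const_div_atTop_nhds_zero_nat _)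
      rw [sub_zero] at t2
      refine t2.congr' ?_
      filter_upwards [eventually_ge_atTop (J + 1)] with j hj
      have hj0 : (0 : ℝ) < j := by
        have : 0 < j := by omega
        exact_mod_cast this
      have hj1 : ((j + 1 - J : ℕ) : ℝ) = j + 1 - J := by
        rw [Nat.cast_sub (by omega)]
        push_cast
        ring
      rw [hj1]
      field_simp
      ring
    · exact Tendsto.rpow_const (tendsto_const_div_atTop_nhds_zero_nat _) (Or.inr h0.le)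
  rw [Real.one_rpow, Real.zero_rpow h0.ne', sub_zero] at t1
  have h2 : θ / γ < 1 := (div_lt_one hγ).2 h1
  filter_upwards [t1.eventually (lt_mem_nhds h2), eventually_ge_atTop (J + 1)] with j hj hJ
  have hj0 : (0 : ℝ) < j := by
    have : 0 < j := by omega
    exact_mod_cast this
  have hjt : (0 : ℝ) < (j : ℝ) ^ θ := Real.rpow_pos_of_pos hj0 _
  rw [Real.div_rpow (Nat.cast_nonneg _) hj0.le, Real.div_rpow (Nat.cast_nonneg _) hj0.le,
    ← sub_div, lt_div_iff₀ hjt] at hj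
  have h3 : (j : ℝ) ^ θ = γ / θ * (θ / γ * (j : ℝ) ^ θ) := by
    field_simp
  calc (j : ℝ) ^ θ = γ / θ * (θ / γ * (j : ℝ) ^ θ) := h3
    _ ≤ _ := mul_le_mul_of_nonneg_left hj.le (by positivity)

/-- **Growth.** -/
theorem grow {γ θ : ℝ} (h0 : 0 < θ) (h1 : θ < γ) (hγ1 : γ ≤ 1) {J : ℕ} (hJ : 1 ≤ J) :
    ∃ c : ℝ, 0 < c ∧ ∀ (M : ℕ) (ν : ℕ → ℝ), (∀ j, 0 ≤ ν j) →
      (∀ j, J ≤ j → j ≤ M → γ / 2 + γ * ∑ i ∈ Ico J (j + 1 - J), ν i ≤ j * ν j) →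
      ∀ j, J ≤ j → j ≤ M → c * (j : ℝ) ^ (θ - 1) ≤ ν j := by
  have hγ : 0 < γ := h0.trans h1
  obtain ⟨M₀, hM₀⟩ := eventually_atTop.1 (eventually_rpow h0 h1 J)
  set M₁ := max M₀ (2 * J) with hM₁
  have hM₁J : 2 * J ≤ M₁ := le_max_right _ _
  have hM₁0 : (0 : ℝ) < M₁ := by
    have : 0 < M₁ := by omega
    exact_mod_cast this
  have hMt : (0 : ℝ) < (M₁ : ℝ) ^ (-θ) := Real.rpow_pos_of_pos hM₁0 _
  refine ⟨γ / 2 * (M₁ : ℝ) ^ (-θ), by positivity, ?_⟩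
  intro M ν hν hrec j
  set c := γ / 2 * (M₁ : ℝ) ^ (-θ) with hc
  have hc0 : 0 < c := by positivity
  induction j using Nat.strong_induction_on with
  | _ j ih =>
    intro hJj hjM
    have hj0 : (0 : ℝ) < j := by
      have : 0 < j := by omega
      exact_mod_cast this
    have hrj := hrec j hJj hjM
    by_cases hle : j ≤ M₁
    · have h2 : 0 ≤ ∑ i ∈ Ico J (j + 1 - J), ν i := Finset.sum_nonneg fun i _ => hν i
      have h3 : γ / 2 ≤ j * ν j := by nlinarith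
      have h4 : (j : ℝ) ^ θ ≤ (M₁ : ℝ) ^ θ :=
        Real.rpow_le_rpow hj0.le (by exact_mod_cast hle) h0.le
      have h5 : (M₁ : ℝ) ^ (-θ) * (M₁ : ℝ) ^ θ = 1 := by
        rw [← Real.rpow_add hM₁0, neg_add_cancel, Real.rpow_zero]
      have h6 : (j : ℝ) ^ (θ - 1) = (j : ℝ) ^ θ / j := by
        rw [Real.rpow_sub hj0, Real.rpow_one]
      rw [h6, ← mul_div_assoc, div_le_iff₀ hj0, hc]
      have h7 : (M₁ : ℝ) ^ (-θ) * (j : ℝ) ^ θ ≤ 1 := by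
        rw [← h5]
        exact mul_le_mul_of_nonneg_left h4 hMt.le
      nlinarith
    · have hle' : M₁ < j := by omega
      have hMj : M₀ ≤ j := (le_max_left M₀ (2 * J)).trans hle'.le
      have h2 := hM₀ j hMj
      have h3 : J ≤ j + 1 - J := by omega
      have h4 := sum_rpow h0 (by linarith) hJ h3
      have h5 : ∑ i ∈ Ico J (j + 1 - J), c * (i : ℝ) ^ (θ - 1) ≤
          ∑ i ∈ Ico J (j + 1 - J), ν i := by
        refine Finset.sum_le_sum fun i hi => ?_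
        rw [mem_Ico] at hi
        exact ih i (by omega) hi.1 (by omega)
      rw [← Finset.mul_sum] at h5
      have h6 : (j : ℝ) ^ (θ - 1) = (j : ℝ) ^ θ / j := by
        rw [Real.rpow_sub hj0, Real.rpow_one]
      rw [h6, ← mul_div_assoc, div_le_iff₀ hj0]
      have h7 : c * (j : ℝ) ^ θ ≤ γ * (c * ∑ i ∈ Ico J (j + 1 - J), (i : ℝ) ^ (θ - 1)) := by
        calc c * (j : ℝ) ^ θ ≤ c * (γ / θ * (((j + 1 - J : ℕ) : ℝ) ^ θ - (J : ℝ) ^ θ)) :=
              mul_le_mul_of_nonneg_left h2 hc0.le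
          _ = γ * (c * ((((j + 1 - J : ℕ) : ℝ) ^ θ - (J : ℝ) ^ θ) / θ)) := by ring
          _ ≤ _ := mul_le_mul_of_nonneg_left (mul_le_mul_of_nonneg_left h4 hc0.le) hγ.le
      have h8 : γ * (c * ∑ i ∈ Ico J (j + 1 - J), (i : ℝ) ^ (θ - 1)) ≤
          γ * ∑ i ∈ Ico J (j + 1 - J), ν i := mul_le_mul_of_nonneg_left h5 hγ.le
      have h9 : c * (j : ℝ) ^ θ ≤ j * ν j := by linarith
      linarith

end Pool.Agent.Q126.PP
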