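import Pool.Agent.Q126.PP.Comb
import Pool.Agent.Q126.PP.Grow

/-!
Lower bounds for the number of the subsets of weight `j`.
-/

set_option autoImplicit false
set_option linter.all false

open Finset Filter Topology

namespace Pool.Agent.Q126.PP

theorem geom_tail {q : ℝ} (hq : 2 ≤ q) (J : ℕ) : ∀ n : ℕ,
    ∑ d ∈ Ico J (J + n), (q⁻¹) ^ d ≤ 2 * (q⁻¹) ^ J - 2 * (q⁻¹) ^ (J + n) := by
  have hq0 : 0 < q := by linarith
  have hi : q⁻¹ ≤ 1 / 2 := by
    rw [inv_eq_one_div]
    exact one_div_le_one_div_of_le two_pos hq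
  intro n
  induction n with
  | zero => simp
  | succ n ih =>
    rw [← add_assoc, Finset.sum_Ico_succ_top (by omega), pow_succ]
    have h1 : (0 : ℝ) < (q⁻¹) ^ (J + n) := by positivity
    nlinarith

variable {α : Type} [DecidableEq α] {U : Finset α} {w : α → ℕ}

theorem bw_small {J : ℕ} (hw : ∀ a ∈ U, J ≤ w a) {d : ℕ} (hd : d < J) : bw U w d = 0 := by
  unfold bw
  rw [Finset.filter_eq_empty_iff.2, Finset.card_empty, mul_zero]
  intro a ha h
  have := hw a ha
  omega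

theorem cnt_le {q : ℝ} (hq : 2 ≤ q) {J : ℕ} (hJ : 1 ≤ J) (hw : ∀ a ∈ U, J ≤ w a)
    (hu : ∀ d, (bw U w d : ℝ) ≤ q ^ d) (j : ℕ) : (cnt U w j : ℝ) ≤ q ^ j := by
  have hq0 : 0 < q := by linarith
  induction j using Nat.strong_induction_on with
  | _ j ih =>
    rcases Nat.eq_zero_or_pos j with rfl | hj
    · rw [cnt_zero fun a ha => lt_of_lt_of_le (by omega) (hw a ha)]
      simp
    · have h1 : ((j * cnt U w j : ℕ) : ℝ) ≤
          ((∑ d ∈ range (j + 1), bw U w d * cnt U w (j - d) : ℕ) : ℝ) := by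
        exact_mod_cast upper (U := U) (w := w) j
      push_cast at h1
      rw [Finset.sum_range_succ'] at h1
      have h0 : bw U w 0 = 0 := bw_small hw (by omega)
      rw [h0, Nat.cast_zero, zero_mul, add_zero] at h1
      have h2 : ∑ d ∈ range j, (bw U w (d + 1) : ℝ) * (cnt U w (j - (d + 1)) : ℝ) ≤
          ∑ d ∈ range j, q ^ j := by
        refine Finset.sum_le_sum fun d hd => ?_
        rw [mem_range] at hd
        calc (bw U w (d + 1) : ℝ) * (cnt U w (j - (d + 1)) : ℝ)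
            ≤ q ^ (d + 1) * q ^ (j - (d + 1)) :=
              mul_le_mul (hu _) (ih _ (by omega)) (Nat.cast_nonneg _) (by positivity)
          _ = q ^ j := by rw [← pow_add]; congr 1; omega
      rw [Finset.sum_const, card_range, nsmul_eq_mul] at h2
      have hj0 : (0 : ℝ) < j := by exact_mod_cast hj
      exact le_of_mul_le_mul_left (h1.trans h2) hj0

theorem rec_ineq {q : ℝ} (hq : 2 ≤ q) {γ : ℝ} (hγ : 0 < γ) {J M : ℕ} (hJ : 1 ≤ J)
    (hJq : 4 ≤ γ * q ^ J) (hw : ∀ a ∈ U, J ≤ w a) (hu : ∀ d, (bw U w d : ℝ) ≤ q ^ d)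
    (hl : ∀ d, J ≤ d → d ≤ M → γ * q ^ d ≤ bw U w d) {j : ℕ} (hJj : J ≤ j) (hjM : j ≤ M) :
    γ / 2 + γ * ∑ i ∈ Ico J (j + 1 - J), (cnt U w i : ℝ) / q ^ i ≤
      j * ((cnt U w j : ℝ) / q ^ j) := by
  have hq0 : 0 < q := by linarith
  have hqj : 0 < q ^ j := by positivity
  have h1 : ((∑ d ∈ range (j + 1), bw U w d * cnt U w (j - d) : ℕ) : ℝ) ≤
      ((j * cnt U w j + ∑ d ∈ range (j + 1), bw U w d *
        (if 2 * d ≤ j then cnt U w (j - 2 * d) else 0) : ℕ) : ℝ) := by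
    exact_mod_cast lower (U := U) (w := w) j
  push_cast at h1
  -- the main term
  have h2 : γ * q ^ j * (1 + ∑ i ∈ Ico J (j + 1 - J), (cnt U w i : ℝ) / q ^ i) ≤
      ∑ d ∈ range (j + 1), (bw U w d : ℝ) * (cnt U w (j - d) : ℝ) := by
    have h3 : ∑ d ∈ Ico J (j + 1), γ * q ^ j * ((cnt U w (j - d) : ℝ) / q ^ (j - d)) ≤
        ∑ d ∈ range (j + 1), (bw U w d : ℝ) * (cnt U w (j - d) : ℝ) := by
      have h4 : ∑ d ∈ Ico J (j + 1), (bw U w d : ℝ) * (cnt U w (j - d) : ℝ) ≤
          ∑ d ∈ range (j + 1), (bw U w d : ℝ) * (cnt U w (j - d) : ℝ) := by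
        refine Finset.sum_le_sum_of_subset_of_nonneg ?_ fun d _ _ => by positivity
        intro d hd
        rw [mem_Ico] at hd
        rw [mem_range]
        exact hd.2
      refine le_trans (Finset.sum_le_sum fun d hd => ?_) h4
      rw [mem_Ico] at hd
      have h5 : q ^ j = q ^ d * q ^ (j - d) := by
        rw [← pow_add]
        congr 1
        omega
      have h6 : γ * q ^ j * ((cnt U w (j - d) : ℝ) / q ^ (j - d)) =
          γ * q ^ d * (cnt U w (j - d) : ℝ) := by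
        rw [h5]
        have : q ^ (j - d) ≠ 0 := by positivity
        field_simp
      rw [h6]
      exact mul_le_mul_of_nonneg_right (hl d hd.1 (by omega)) (Nat.cast_nonneg _)
    refine le_trans ?_ h3
    rw [← Finset.mul_sum]
    refine mul_le_mul_of_nonneg_left ?_ (by positivity)
    have h7 : ∑ d ∈ Ico J (j + 1), (cnt U w (j - d) : ℝ) / q ^ (j - d) =
        ∑ i ∈ range (j + 1 - J), (cnt U w i : ℝ) / q ^ i := by
      have h8 := Finset.sum_Ico_reflect (fun i => (cnt U w i : ℝ) / q ^ i) J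
        (m := j + 1) (n := j) le_rfl
      rw [h8, Finset.range_eq_Ico]
      congr 2
      omega
    rw [h7]
    have h9 : ({0} : Finset ℕ) ∪ Ico J (j + 1 - J) ⊆ range (j + 1 - J) := by
      intro i hi
      rw [mem_union, mem_singleton, mem_Ico] at hi
      rw [mem_range]
      omega
    have h10 : Disjoint ({0} : Finset ℕ) (Ico J (j + 1 - J)) := by
      rw [Finset.disjoint_singleton_left, mem_Ico]
      omega
    have h11 : ∑ i ∈ ({0} : Finset ℕ) ∪ Ico J (j + 1 - J), (cnt U w i : ℝ) / q ^ i ≤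
        ∑ i ∈ range (j + 1 - J), (cnt U w i : ℝ) / q ^ i :=
      Finset.sum_le_sum_of_subset_of_nonneg h9 fun i _ _ => by positivity
    rw [Finset.sum_union h10, Finset.sum_singleton,
      cnt_zero fun a ha => lt_of_lt_of_le (by omega) (hw a ha)] at h11
    simpa using h11
  -- the error term
  have h12 : ∑ d ∈ range (j + 1), (bw U w d : ℝ) *
      (if 2 * d ≤ j then (cnt U w (j - 2 * d) : ℝ) else 0) ≤ q ^ j * (2 * (q⁻¹) ^ J) := by
    have h13 : ∑ d ∈ range (j + 1), (bw U w d : ℝ) *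
        (if 2 * d ≤ j then (cnt U w (j - 2 * d) : ℝ) else 0) =
        ∑ d ∈ Ico J (j + 1), (bw U w d : ℝ) *
        (if 2 * d ≤ j then (cnt U w (j - 2 * d) : ℝ) else 0) := by
      symm
      refine Finset.sum_subset ?_ ?_
      · intro d hd
        rw [mem_Ico] at hd
        rw [mem_range]
        exact hd.2
      · intro d hd hd'
        rw [mem_range] at hd
        rw [mem_Ico] at hd'
        rw [bw_small hw (by omega), Nat.cast_zero, zero_mul]
    rw [h13]
    have h14 : ∀ d ∈ Ico J (j + 1), (bw U w d : ℝ) *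
        (if 2 * d ≤ j then (cnt U w (j - 2 * d) : ℝ) else 0) ≤ q ^ j * (q⁻¹) ^ d := by
      intro d hd
      split_ifs with h
      · calc (bw U w d : ℝ) * (cnt U w (j - 2 * d) : ℝ) ≤ q ^ d * q ^ (j - 2 * d) :=
              mul_le_mul (hu d) (cnt_le hq hJ hw hu _) (Nat.cast_nonneg _) (by positivity)
          _ = q ^ j * (q⁻¹) ^ d := by
              have h15 : q ^ j = q ^ d * q ^ (j - 2 * d) * q ^ d := by
                rw [← pow_add, ← pow_add]
                congr 1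
                omega
              rw [h15, inv_pow]
              have : q ^ d ≠ 0 := by positivity
              field_simp
      · rw [mul_zero]
        positivity
    refine (Finset.sum_le_sum h14).trans ?_
    rw [← Finset.mul_sum]
    refine mul_le_mul_of_nonneg_left ?_ hqj.le
    have h15 := geom_tail hq J (j + 1 - J)
    have h16 : J + (j + 1 - J) = j + 1 := by omega
    rw [h16] at h15
    have h17 : (0 : ℝ) < (q⁻¹) ^ (j + 1) := by positivity
    linarith
  have h18 : 2 * (q⁻¹) ^ J ≤ γ / 2 := by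
    rw [inv_pow, ← div_eq_mul_inv, div_le_iff₀ (by positivity)]
    linarith
  have h19 : q ^ j * (2 * (q⁻¹) ^ J) ≤ q ^ j * (γ / 2) := mul_le_mul_of_nonneg_left h18 hqj.le
  have h20 : q ^ j * (γ / 2 + γ * ∑ i ∈ Ico J (j + 1 - J), (cnt U w i : ℝ) / q ^ i) ≤
      j * (cnt U w j : ℝ) := by
    have e : γ * q ^ j * (1 + ∑ i ∈ Ico J (j + 1 - J), (cnt U w i : ℝ) / q ^ i) =
      q ^ j * (γ / 2 + γ * ∑ i ∈ Ico J (j + 1 - J), (cnt U w i : ℝ) / q ^ i) +
        q ^ j * (γ / 2) := by ring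
    linarith
  rw [← mul_div_assoc, le_div_iff₀ hqj]
  linarith

/-- **The number of the subsets of weight `j`.** -/
theorem many_subsets {q : ℝ} (hq : 2 ≤ q) {γ θ : ℝ} (h0 : 0 < θ) (h1 : θ < γ) (hγ1 : γ ≤ 1)
    {J : ℕ} (hJ : 1 ≤ J) (hJq : 4 ≤ γ * q ^ J) : ∃ c : ℝ, 0 < c ∧
      ∀ (α : Type) [DecidableEq α] (U : Finset α) (w : α → ℕ) (M : ℕ),
        (∀ a ∈ U, J ≤ w a) → (∀ d, (bw U w d : ℝ) ≤ q ^ d) →
        (∀ d, J ≤ d → d ≤ M → γ * q ^ d ≤ bw U w d) → ∀ j, J ≤ j → j ≤ M →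
          c * (j : ℝ) ^ (θ - 1) * q ^ j ≤ cnt U w j := by
  obtain ⟨c, hc, h⟩ := grow h0 h1 hγ1 hJ
  refine ⟨c, hc, ?_⟩
  intro α _ U w M hw hu hl j hJj hjM
  have hq0 : 0 < q := by linarith
  have h2 := h M (fun i => (cnt U w i : ℝ) / q ^ i) (fun i => by positivity)
    (fun i hi hiM => rec_ineq hq (h0.trans h1) hJ hJq hw hu hl hi hiM) j hJj hjM
  rwa [le_div_iff₀ (by positivity)] at h2

end Pool.Agent.Q126.PP
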