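import Mathlib

/-!
Counting the finite subsets of a weighted set by their weights.
-/

set_option autoImplicit false
set_option linter.all false

open Finset

namespace Pool.Agent.Q126.PP

variable {α : Type} [DecidableEq α] (U : Finset α) (w : α → ℕ)

/-- the number of the subsets of weight `j` -/
def cnt (j : ℕ) : ℕ := (U.powerset.filter (fun S => ∑ a ∈ S, w a = j)).card

/-- the number of the subsets of weight `j` which contain `a` -/
def cntW (a : α) (j : ℕ) : ℕ := (U.powerset.filter (fun S => ∑ a ∈ S, w a = j ∧ a ∈ S)).card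

/-- the number of the subsets of weight `j` which do not contain `a` -/
def cntO (a : α) (j : ℕ) : ℕ := (U.powerset.filter (fun S => ∑ a ∈ S, w a = j ∧ a ∉ S)).card

variable {U w}

theorem cnt_split (a : α) (j : ℕ) : cnt U w j = cntW U w a j + cntO U w a j := by
  unfold cnt cntW cntO
  rw [← Finset.card_filter_add_card_filter_not (s := U.powerset.filter
    (fun S => ∑ a ∈ S, w a = j)) (fun S => a ∈ S), Finset.filter_filter, Finset.filter_filter]

theorem cntW_of_lt {a : α} {j : ℕ} (h : j < w a) : cntW U w a j = 0 := by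
  unfold cntW
  rw [Finset.card_eq_zero, Finset.filter_eq_empty_iff]
  rintro S - ⟨h1, h2⟩
  have h3 := Finset.single_le_sum (f := w) (fun i _ => Nat.zero_le _) h2
  omega

theorem cntW_add {a : α} (ha : a ∈ U) (j : ℕ) : cntW U w a (w a + j) = cntO U w a j := by
  unfold cntW cntO
  refine Finset.card_bij' (fun S _ => S.erase a) (fun S _ => insert a S) ?_ ?_ ?_ ?_
  · intro S hS
    rw [mem_filter, mem_powerset] at hS ⊢
    obtain ⟨h1, h2, h3⟩ := hS
    refine ⟨(Finset.erase_subset _ _).trans h1, ?_, Finset.notMem_erase _ _⟩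
    have h4 := Finset.add_sum_erase S w h3
    omega
  · intro S hS
    rw [mem_filter, mem_powerset] at hS ⊢
    obtain ⟨h1, h2, h3⟩ := hS
    refine ⟨Finset.insert_subset ha h1, ?_, Finset.mem_insert_self _ _⟩
    rw [Finset.sum_insert h3, h2]
  · intro S hS
    rw [mem_filter] at hS
    exact Finset.insert_erase hS.2.2
  · intro S hS
    rw [mem_filter] at hS
    exact Finset.erase_insert hS.2.2

/-- double counting -/
theorem mul_cnt (j : ℕ) : j * cnt U w j = ∑ a ∈ U, w a * cntW U w a j := by
  unfold cnt cntW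
  have h1 : ∀ a, (U.powerset.filter (fun S => ∑ a ∈ S, w a = j ∧ a ∈ S)).card =
      ∑ S ∈ U.powerset.filter (fun S => ∑ a ∈ S, w a = j), if a ∈ S then 1 else 0 := by
    intro a
    rw [← Finset.card_filter, Finset.filter_filter]
  have h2 : ∀ S ∈ U.powerset.filter (fun S => ∑ a ∈ S, w a = j),
      ∑ a ∈ U, w a * (if a ∈ S then 1 else 0) = j := by
    intro S hS
    rw [mem_filter, mem_powerset] at hS
    rw [← hS.2, ← Finset.sum_subset hS.1]
    · exact Finset.sum_congr rfl fun a ha => by rw [if_pos ha, mul_one]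
    · intro a _ ha
      rw [if_neg ha, mul_zero]
  simp only [h1, Finset.mul_sum]
  rw [Finset.sum_comm, Finset.sum_congr rfl h2, Finset.sum_const, smul_eq_mul, mul_comm]

/-- the total weight of the elements of weight `d` -/
def bw (U : Finset α) (w : α → ℕ) (d : ℕ) : ℕ := d * (U.filter (fun a => w a = d)).card

theorem sum_group (f : ℕ → ℕ) {j : ℕ} (hf : ∀ d, j < d → f d = 0) :
    ∑ a ∈ U, w a * f (w a) = ∑ d ∈ range (j + 1), bw U w d * f d := by
  have h1 : ∑ a ∈ U, w a * f (w a) = ∑ a ∈ U.filter (fun a => w a ∈ range (j + 1)),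
      w a * f (w a) := by
    rw [Finset.sum_filter_of_ne]
    intro a _ ha
    rw [mem_range]
    by_contra hcon
    rw [hf _ (by omega), mul_zero] at ha
    exact ha rfl
  rw [h1, ← Finset.sum_fiberwise_of_maps_to (g := w) (t := range (j + 1))
    (fun a ha => (mem_filter.1 ha).2)]
  refine Finset.sum_congr rfl fun d hd => ?_
  unfold bw
  rw [Finset.filter_filter]
  have h2 : U.filter (fun a => w a ∈ range (j + 1) ∧ w a = d) = U.filter (fun a => w a = d) := by
    apply Finset.filter_congr
    intro a _
    constructor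
    · exact fun h => h.2
    · intro h
      exact ⟨h ▸ hd, h⟩
  rw [h2, Finset.sum_congr rfl (g := fun _ => d * f d) (fun a ha => by
    rw [(mem_filter.1 ha).2]), Finset.sum_const, smul_eq_mul]
  ring

theorem upper (j : ℕ) :
    j * cnt U w j ≤ ∑ d ∈ range (j + 1), bw U w d * cnt U w (j - d) := by
  rw [mul_cnt]
  have h1 := sum_group (U := U) (w := w) (fun d => if d ≤ j then cnt U w (j - d) else 0) (j := j)
    (fun d hd => if_neg (by omega))
  have h2 : ∑ d ∈ range (j + 1), bw U w d * (if d ≤ j then cnt U w (j - d) else 0) =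
      ∑ d ∈ range (j + 1), bw U w d * cnt U w (j - d) := by
    refine Finset.sum_congr rfl fun d hd => ?_
    rw [if_pos (by have := mem_range.1 hd; omega)]
  rw [← h2, ← h1]
  refine Finset.sum_le_sum fun a ha => Nat.mul_le_mul_left _ ?_
  split_ifs with h
  · have h3 := cntW_add (w := w) ha (j - w a)
    rw [Nat.add_sub_cancel' h] at h3
    have h4 := cnt_split (U := U) (w := w) a (j - w a)
    omega
  · rw [cntW_of_lt (by omega)]

theorem lower (j : ℕ) :
    ∑ d ∈ range (j + 1), bw U w d * cnt U w (j - d) ≤ j * cnt U w j +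
      ∑ d ∈ range (j + 1), bw U w d * (if 2 * d ≤ j then cnt U w (j - 2 * d) else 0) := by
  rw [mul_cnt]
  have h1 := sum_group (U := U) (w := w) (fun d => if d ≤ j then cnt U w (j - d) else 0) (j := j)
    (fun d hd => if_neg (by omega))
  have h2 : ∑ d ∈ range (j + 1), bw U w d * (if d ≤ j then cnt U w (j - d) else 0) =
      ∑ d ∈ range (j + 1), bw U w d * cnt U w (j - d) := by
    refine Finset.sum_congr rfl fun d hd => ?_
    rw [if_pos (by have := mem_range.1 hd; omega)]
  have h3 := sum_group (U := U) (w := w) (fun d => if 2 * d ≤ j then cnt U w (j - 2 * d) else 0)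
    (j := j) (fun d hd => if_neg (by omega))
  rw [← h2, ← h1, ← h3, ← Finset.sum_add_distrib]
  refine Finset.sum_le_sum fun a ha => ?_
  rw [← mul_add]
  refine Nat.mul_le_mul_left _ ?_
  split_ifs with h h' h'
  · have h4 := cntW_add (w := w) ha (j - w a)
    rw [Nat.add_sub_cancel' h] at h4
    have h5 := cnt_split (U := U) (w := w) a (j - w a)
    have h6 := cntW_add (w := w) ha (j - 2 * w a)
    have h7 : w a + (j - 2 * w a) = j - w a := by omega
    rw [h7] at h6
    have h8 := cnt_split (U := U) (w := w) a (j - 2 * w a)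
    omega
  · have h4 := cntW_add (w := w) ha (j - w a)
    rw [Nat.add_sub_cancel' h] at h4
    have h5 := cnt_split (U := U) (w := w) a (j - w a)
    have h6 : cntW U w a (j - w a) = 0 := cntW_of_lt (by omega)
    omega
  · omega
  · omega

theorem cnt_zero (hw : ∀ a ∈ U, 0 < w a) : cnt U w 0 = 1 := by
  unfold cnt
  rw [Finset.card_eq_one]
  refine ⟨∅, ?_⟩
  ext S
  rw [mem_filter, mem_powerset, mem_singleton]
  constructor
  · rintro ⟨h1, h2⟩
    rw [Finset.eq_empty_iff_forall_notMem]
    intro a ha
    have h3 := (Finset.sum_eq_zero_iff.1 h2) a ha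
    have h4 := hw a (h1 ha)
    omega
  · rintro rfl
    simp

end Pool.Agent.Q126.PP
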