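import Pool.Agent.Q126.SB.Tower

/-!
Twists by polynomials all of whose prime factors are inert, over finite fields: all the extensions of
degree prime to three.
-/

set_option autoImplicit false
set_option linter.all false

open Polynomial Module Pool.Agent.TH115.GD

namespace Pool.Agent.Q126.PP

section frob

variable {k₀ k L : Type} [Field k₀] [Finite k₀] [Field k] [Finite k] [Field L] [Finite L]
  [Algebra k₀ k] [Algebra k L] [Algebra k₀ L] [IsScalarTower k₀ k L]

theorem pow_of_root {f : k₀[X]} (hf : Irreducible f) {x : L} (hx : aeval x f = 0) :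
    x ^ Nat.card k₀ ^ f.natDegree = x := by
  have h1 : f ∣ X ^ (Nat.card k₀) ^ f.natDegree - X :=
    hf.natDegree_dvd_iff_dvd_X_pow_card_pow_sub_X.1 dvd_rfl
  obtain ⟨g, hg⟩ := h1
  have h2 := congrArg (aeval x) hg
  rw [map_mul, hx, zero_mul, map_sub, map_pow, aeval_X, sub_eq_zero] at h2
  exact h2

/-- The degrees of the roots over an extension divide the degree. -/
theorem deg_dvd [FiniteDimensional k₀ k] {f : k₀[X]} (hf : Irreducible f) {x : L}
    (hx : aeval x f = 0) : (minpoly k x).natDegree ∣ f.natDegree := by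
  haveI : FiniteDimensional k L := Module.Finite.of_finite
  have hint : IsIntegral k x := Algebra.IsIntegral.isIntegral _
  have h1 := pow_of_root hf hx
  have hc : Nat.card k = Nat.card k₀ ^ finrank k₀ k := Module.natCard_eq_pow_finrank
  have h2 : ∀ n : ℕ, x ^ (Nat.card k₀ ^ f.natDegree) ^ n = x := by
    intro n
    induction n with
    | zero => rw [pow_zero, pow_one]
    | succ n ih => rw [pow_succ, pow_mul, ih, h1]
  have h3 : x ^ (Nat.card k) ^ f.natDegree = x := by
    rw [hc, ← pow_mul, mul_comm, pow_mul]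
    exact h2 _
  refine (minpoly.irreducible hint).natDegree_dvd_of_dvd_X_pow_card_pow_sub_X (minpoly.dvd _ _ ?_)
  rw [map_sub, map_pow, aeval_X, h3, sub_self]

end frob

section inert

variable {k₀ k : Type} [Field k₀] [Finite k₀] [Field k] [Algebra k₀ k] [FiniteDimensional k₀ k]

theorem inert_pull {g D : k₀[X]} (hg3 : g.natDegree = 3)
    (h : ∀ P : k₀[X], Irreducible P → P ∣ D → Irreducible (P.comp (-g)))
    (hco : ¬ 3 ∣ finrank k₀ k) (hD0 : D ≠ 0)
    {l : List (k × k)} (hl : ∀ p ∈ l, p.1 ≠ 0) {π : k[X]} (hπ : Irreducible π)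
    (hπD : π ∣ (D.map (algebraMap k₀ k)).comp (cq l)) (u : k[X]) :
    ¬ π ∣ (g.map (algebraMap k₀ k)).comp u + cq l := by
  intro hu
  haveI : Finite k := Module.finite_of_finite k₀
  haveI : Fact (Irreducible π) := ⟨hπ⟩
  haveI : FiniteDimensional k (AdjoinRoot π) := (AdjoinRoot.powerBasis hπ.ne_zero).finite
  haveI : Finite (AdjoinRoot π) := Module.finite_of_finite k
  haveI : IsScalarTower k₀ k (AdjoinRoot π) := inferInstance
  haveI : FiniteDimensional k₀ (AdjoinRoot π) := FiniteDimensional.trans k₀ k (AdjoinRoot π)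
  have hfin : finrank k (AdjoinRoot π) = π.natDegree := by
    rw [(AdjoinRoot.powerBasis hπ.ne_zero).finrank, AdjoinRoot.powerBasis_dim hπ.ne_zero]
  set τ := AdjoinRoot.root π with hτ
  set α := aeval τ (cq l) with hα
  have nat_of : ∀ (f : k₀[X]), Irreducible f → ∀ x : AdjoinRoot π, aeval x f = 0 →
      (minpoly k₀ x).natDegree = f.natDegree := by
    intro f hf x hx
    rw [← minpoly.eq_of_irreducible hf hx, natDegree_mul_C]
    exact inv_ne_zero (leadingCoeff_ne_zero.2 hf.ne_zero)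
  have h1 : aeval α D = 0 := by
    have h2 : aeval τ ((D.map (algebraMap k₀ k)).comp (cq l)) = 0 := by
      rw [hτ, AdjoinRoot.aeval_eq]
      exact AdjoinRoot.mk_eq_zero.2 hπD
    rwa [aeval_comp, aeval_map_algebraMap] at h2
  -- a prime factor of `D` with the root `α`
  obtain ⟨P, hP, hPD, hPα⟩ : ∃ P : k₀[X], Irreducible P ∧ P ∣ D ∧ aeval α P = 0 := by
    have hint : IsIntegral k₀ α := Algebra.IsIntegral.isIntegral _
    exact ⟨minpoly k₀ α, minpoly.irreducible hint, minpoly.dvd _ _ h1, minpoly.aeval _ _⟩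
  have hPg := h P hP hPD
  have h2 : aeval (aeval τ u) (-g) = α := by
    have h3 : aeval τ ((g.map (algebraMap k₀ k)).comp u + cq l) = 0 := by
      rw [hτ, AdjoinRoot.aeval_eq]
      exact AdjoinRoot.mk_eq_zero.2 hu
    rw [map_add, aeval_comp, aeval_map_algebraMap] at h3
    rw [map_neg, hα]
    linear_combination (-1 : AdjoinRoot π) * h3
  have h3 : aeval (aeval τ u) (P.comp (-g)) = 0 := by
    rw [aeval_comp, h2, hPα]
  have n2 : (minpoly k₀ (aeval τ u)).natDegree = P.natDegree * 3 := by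
    rw [nat_of _ hPg _ h3, natDegree_comp, natDegree_neg, hg3]
  have n3 : (minpoly k τ).natDegree = π.natDegree := by
    have e := minpoly.eq_of_irreducible hπ (x := τ) (by
      rw [hτ, AdjoinRoot.aeval_eq, AdjoinRoot.mk_self])
    rw [← e, natDegree_mul_C]
    exact inv_ne_zero (leadingCoeff_ne_zero.2 hπ.ne_zero)
  have d1 : (minpoly k₀ (aeval τ u)).natDegree ∣ finrank k₀ (AdjoinRoot π) :=
    minpoly.degree_dvd (Algebra.IsIntegral.isIntegral _)
  rw [← finrank_mul_finrank k₀ k (AdjoinRoot π), hfin, ← n3, n2] at d1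
  have d2 := Pool.Agent.Q126.FD.list_dvd l hl τ
  have d3 : (minpoly k α).natDegree ∣ P.natDegree := deg_dvd (k₀ := k₀) hP hPα
  have d4 : P.natDegree * 3 ∣ P.natDegree * (finrank k₀ k * 2 ^ l.length) := by
    refine d1.trans ?_
    refine (mul_dvd_mul_left _ (d2.trans (mul_dvd_mul_left _ d3))).trans ?_
    exact dvd_of_eq (by ring)
  have d5 : 3 ∣ finrank k₀ k * 2 ^ l.length := Nat.dvd_of_mul_dvd_mul_left hP.natDegree_pos d4
  rcases (Nat.prime_three.dvd_mul).1 d5 with d6 | d6
  · exact hco d6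
  · have d7 := (Nat.prime_three).dvd_of_dvd_pow d6
    omega

end inert

section sep

variable {k : Type} [Field k]

theorem sep_pull (h2 : (2 : k) ≠ 0) {D : k[X]} (hs : D.Separable)
    {l : List (k × k)} (hl : ∀ p ∈ l, p.1 ≠ 0) (hγ : ∀ γ ∈ crit l, D.eval γ ≠ 0) :
    (D.comp (cq l)).Separable := by
  rw [Polynomial.Separable, isCoprime_iff_aeval_ne_zero_of_isAlgClosed k (AlgebraicClosure k)]
  intro t
  by_contra hcon
  push Not at hcon
  obtain ⟨c1, c2⟩ := hcon
  rw [aeval_comp] at c1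
  rw [derivative_comp, map_mul, aeval_comp] at c2
  have h3 := (isCoprime_iff_aeval_ne_zero_of_isAlgClosed k (AlgebraicClosure k) _ _).1 hs
    (aeval t (cq l))
  rcases mul_eq_zero.1 c2 with h4 | h4
  · have h2' : (2 : AlgebraicClosure k) ≠ 0 := by
      have := (_root_.map_ne_zero (algebraMap k (AlgebraicClosure k))).2 h2
      rwa [map_ofNat] at this
    obtain ⟨γ, hγl, h5⟩ := crit_val h2' l hl t h4
    rw [h5, aeval_algebraMap_apply] at c1
    have h6 : D.eval γ = 0 := by
      apply (algebraMap k (AlgebraicClosure k)).injective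
      rw [map_zero]
      exact c1
    exact hγ γ hγl h6
  · rcases h3 with h5 | h5
    · exact h5 c1
    · exact h5 h4

end sep

section sel

/-- **The Selmer group conjecture at 2 for the twists by products of inert primes.** -/
theorem selmer_inert {k₀ k K : Type} [Field k₀] [Finite k₀] [Field k] [Algebra k₀ k]
    [FiniteDimensional k₀ k] [Field K] [Algebra k[X] K] [IsFractionRing k[X] K]
    (h2 : (2 : k) ≠ 0) (h3 : (3 : k) ≠ 0) {b₂ b₁ b₀ : k₀} {D : k₀[X]} (hsq : Squarefree D)
    (h : ∀ P : k₀[X], Irreducible P → P ∣ D → Irreducible (P.comp (-(cb b₂ b₁ b₀))))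
    (hco : ¬ 3 ∣ finrank k₀ k) {d : k} (hd : d ≠ 0) {l : List (k × k)} (hl : ∀ p ∈ l, p.1 ≠ 0)
    (hγ : ∀ γ ∈ crit l, (D.map (algebraMap k₀ k)).eval γ ≠ 0)
    (hcrit : ∀ γ ∈ crit l, Irreducible (cb (algebraMap k₀ k b₂) (algebraMap k₀ k b₁)
      (algebraMap k₀ k b₀) + C γ)) :
    Pool.Agent.Q126.SB.SelmerAtTwo k (twC K (algebraMap k₀ k b₂) (algebraMap k₀ k b₁)
      (algebraMap k₀ k b₀) (cq l) (C d * (D.map (algebraMap k₀ k)).comp (cq l))) := by
  haveI : Finite k := Module.finite_of_finite k₀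
  obtain ⟨k', F, i1, i2, i3, i4, i5, i6, hT⟩ := Pool.Agent.Q126.SB.exists_tower k K
  have e : (cb b₂ b₁ b₀).map (algebraMap k₀ k) = cb (algebraMap k₀ k b₂) (algebraMap k₀ k b₁)
      (algebraMap k₀ k b₀) := by
    unfold cb
    simp
  have hder : derivative (cb (algebraMap k₀ k b₂) (algebraMap k₀ k b₁)
      (algebraMap k₀ k b₀)) ≠ 0 := by
    intro h0
    have h1 := congrArg (fun p : k[X] => p.coeff 2) h0
    rw [cb_der] at h1
    simp [coeff_X, coeff_C] at h1
    exact h3 h1
  have hs : (D.map (algebraMap k₀ k)).Separable :=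
    (PerfectField.separable_iff_squarefree.2 hsq).map
  have hsep := sep_pull h2 hs hl hγ
  have hD0 : (D.map (algebraMap k₀ k)).comp (cq l) ≠ 0 := hsep.ne_zero
  have hu : IsUnit (C d : k[X]) := isUnit_C.2 (isUnit_iff_ne_zero.2 hd)
  refine Pool.Agent.Q126.SB.selmer_of_tate hT _ (Pool.Agent.Q126.SB.tor_tw hT h2 hder hl
    (mul_ne_zero (C_ne_zero.2 hd) hD0)) ?_
  refine tw_tate hT h2 hder hl (fun γ hγ' => ⟨hcrit γ hγ',
    PerfectField.separable_of_irreducible (hcrit γ hγ')⟩) ?_ ?_
  · exact (associated_unit_mul_left _ _ hu).squarefree_iff.2 hsep.squarefree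
  · intro π hπ hπD u
    rw [← e]
    exact inert_pull (cb_deg _ _ _).1 h hco hsq.ne_zero hl hπ ((hu.dvd_mul_left).1 hπD) u

end sel

end Pool.Agent.Q126.PP
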