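import Pool.Agent.Q126.PP.Both
import Pool.Agent.TH943.PT.Orb
import Pool.Agent.Q126.TD.Pol

/-!
The number of the polynomials over a finite field which are products of different inert primes.
-/

set_option autoImplicit false
set_option linter.all false

open Finset Filter Topology Polynomial

namespace Pool.Agent.Q126.PP

theorem geom_le {q : ℝ} (hq : 2 ≤ q) (n : ℕ) : ∑ e ∈ range (n + 1), q ^ e ≤ 2 * q ^ n := by
  induction n with
  | zero => simp
  | succ n ih =>
    rw [Finset.sum_range_succ, pow_succ]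
    have : (0 : ℝ) < q ^ n := by positivity
    nlinarith

theorem proper_le {q : ℕ} (hq : 2 ≤ q) {η : ℝ} (hη : 0 < η) : ∃ J : ℕ, ∀ d, J ≤ d →
    3 * (∑ e ∈ d.properDivisors, (q : ℝ) ^ e) + 1 ≤ η * (q : ℝ) ^ d := by
  have hqR : (2 : ℝ) ≤ q := by exact_mod_cast hq
  obtain ⟨n₀, hn₀⟩ := pow_unbounded_of_one_lt (7 / η) (one_lt_two : (1 : ℝ) < 2)
  refine ⟨2 * n₀ + 1, ?_⟩
  intro d hd
  have h1 : ∑ e ∈ d.properDivisors, (q : ℝ) ^ e ≤ ∑ e ∈ range (d / 2 + 1), (q : ℝ) ^ e := by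
    refine Finset.sum_le_sum_of_subset_of_nonneg ?_ fun e _ _ => by positivity
    intro e he
    obtain ⟨⟨c, hc⟩, h2⟩ := Nat.mem_properDivisors.1 he
    rw [mem_range]
    have h3 : 2 ≤ c := by
      by_contra hcon
      have : c = 0 ∨ c = 1 := by omega
      rcases this with rfl | rfl
      · omega
      · omega
    have h4 : e * 2 ≤ d := by
      rw [hc]
      exact Nat.mul_le_mul_left _ h3
    omega
  have h2 := geom_le hqR (d / 2)
  have h3 : (1 : ℝ) ≤ (q : ℝ) ^ (d / 2) := one_le_pow₀ (by linarith)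
  have h4 : (q : ℝ) ^ d = (q : ℝ) ^ (d / 2) * (q : ℝ) ^ (d - d / 2) := by
    rw [← pow_add]
    congr 1
    omega
  have h5 : (2 : ℝ) ^ n₀ ≤ (q : ℝ) ^ (d - d / 2) :=
    (pow_le_pow_left₀ (by norm_num) hqR _).trans (pow_le_pow_right₀ (by linarith) (by omega))
  have h6 : 7 ≤ η * (q : ℝ) ^ (d - d / 2) := by
    have h7 := hn₀.le.trans h5
    rw [div_le_iff₀ hη] at h7
    linarith
  have h7 : 7 * (q : ℝ) ^ (d / 2) ≤ η * (q : ℝ) ^ (d - d / 2) * (q : ℝ) ^ (d / 2) :=
    mul_le_mul_of_nonneg_right h6 (by positivity)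
  rw [h4]
  nlinarith

section primes

variable {k : Type} [Field k] [Finite k]

theorem finite_le' (n : ℕ) : {f : k[X] | f.natDegree ≤ n}.Finite := by
  apply (Set.finite_range (Pool.Agent.Q126.TD.pol : (Fin (n + 1) → k) → k[X])).subset
  intro f hf
  exact ⟨fun i => f.coeff i, Pool.Agent.Q126.TD.pol_coeff hf⟩

/-- the inert primes of degree between `J` and `M` -/
def inertSet (g : k[X]) (J M : ℕ) : Set k[X] :=
  {P | P.Monic ∧ Irreducible P ∧ Irreducible (P.comp g) ∧ J ≤ P.natDegree ∧ P.natDegree ≤ M}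

theorem inertSet_finite (g : k[X]) (J M : ℕ) : (inertSet g J M).Finite :=
  (finite_le' M).subset fun _ hP => hP.2.2.2.2

open Classical in
theorem card_deg (g : k[X]) {J M d : ℕ} (h1 : J ≤ d) (h2 : d ≤ M) :
    ((inertSet_finite g J M).toFinset.filter (fun P => P.natDegree = d)).card =
      {P : {P : k[X] // P.Monic ∧ Irreducible P} | P.1.natDegree = d ∧
        Irreducible (P.1.comp g)}.ncard := by
  rw [← Set.ncard_coe_finset]
  symm
  refine Set.ncard_congr (fun P _ => P.1) ?_ ?_ ?_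
  · rintro P ⟨h3, h4⟩
    rw [Finset.coe_filter]
    refine ⟨?_, h3⟩
    rw [Set.Finite.mem_toFinset]
    exact ⟨P.2.1, P.2.2, h4, by rw [h3]; exact h1, by rw [h3]; exact h2⟩
  · rintro P Q - - h
    exact Subtype.ext h
  · intro P hP
    rw [Finset.coe_filter] at hP
    obtain ⟨h3, h4⟩ := hP
    rw [Set.Finite.mem_toFinset] at h3
    exact ⟨⟨P, h3.1, h3.2.1⟩, ⟨h4, h3.2.2.1⟩, rfl⟩

open Classical in
theorem bw_bounds (h2 : (2 : k) ≠ 0) (h3 : (3 : k) ≠ 0) {g : k[X]} (hg : g.Monic)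
    (hg3 : g.natDegree = 3) (hab : g.coeff 2 ^ 2 ≠ 3 * g.coeff 1) {γ : ℝ} (hγ : γ < 1 / 3) :
    ∃ J₀ : ℕ, ∀ J, J₀ ≤ J → ∀ M : ℕ,
      (∀ d, (bw (inertSet_finite g J M).toFinset natDegree d : ℝ) ≤ (Nat.card k : ℝ) ^ d) ∧
      ∀ d, J ≤ d → d ≤ M → γ * (Nat.card k : ℝ) ^ d ≤
        bw (inertSet_finite g J M).toFinset natDegree d := by
  have hq : 2 ≤ Nat.card k := Finite.one_lt_card
  obtain ⟨J₁, hJ₁⟩ := proper_le hq (η := min 2 (1 - 3 * γ)) (lt_min (by norm_num) (by linarith))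
  refine ⟨J₁ + 1, ?_⟩
  intro J hJ M
  have key : ∀ d, J ≤ d → d ≤ M →
      γ * (Nat.card k : ℝ) ^ d ≤ bw (inertSet_finite g J M).toFinset natDegree d ∧
      (bw (inertSet_finite g J M).toFinset natDegree d : ℝ) ≤ (Nat.card k : ℝ) ^ d := by
    intro d hd hdM
    have h4 := Pool.Agent.TH943.PT.inert_count h2 h3 hg hg3 hab (N := d) (by omega)
    have h5 := hJ₁ d (by omega)
    have h6 : (bw (inertSet_finite g J M).toFinset natDegree d : ℝ) =
        ((d * {P : {P : k[X] // P.Monic ∧ Irreducible P} | P.1.natDegree = d ∧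
        Irreducible (P.1.comp g)}.ncard : ℕ) : ℝ) := by
      unfold bw
      rw [card_deg g hd hdM]
    rw [h6]
    set A := (d * {P : {P : k[X] // P.Monic ∧ Irreducible P} | P.1.natDegree = d ∧
        Irreducible (P.1.comp g)}.ncard : ℕ) with hA
    have h7 : |3 * (A : ℝ) - (Nat.card k : ℝ) ^ d| ≤
        3 * ∑ e ∈ d.properDivisors, (Nat.card k : ℝ) ^ e + 1 := by
      have := (Int.cast_le (R := ℝ)).2 h4
      push_cast at this
      simpa using this
    have h8 : (0 : ℝ) ≤ (Nat.card k : ℝ) ^ d := by positivity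
    have h9 : min 2 (1 - 3 * γ) * (Nat.card k : ℝ) ^ d ≤ 2 * (Nat.card k : ℝ) ^ d :=
      mul_le_mul_of_nonneg_right (min_le_left _ _) h8
    have h10 : min 2 (1 - 3 * γ) * (Nat.card k : ℝ) ^ d ≤ (1 - 3 * γ) * (Nat.card k : ℝ) ^ d :=
      mul_le_mul_of_nonneg_right (min_le_right _ _) h8
    have h11 := abs_le.1 h7
    constructor
    · nlinarith [h11.1]
    · nlinarith [h11.2]
  constructor
  · intro d
    by_cases hd : J ≤ d ∧ d ≤ M
    · exact (key d hd.1 hd.2).2
    · have h0 : bw (inertSet_finite g J M).toFinset natDegree d = 0 := by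
        unfold bw
        rw [Finset.filter_eq_empty_iff.2, Finset.card_empty, mul_zero]
        intro P hP h
        rw [Set.Finite.mem_toFinset] at hP
        exact hd ⟨h ▸ hP.2.2.2.1, h ▸ hP.2.2.2.2⟩
      rw [h0, Nat.cast_zero]
      positivity
  · exact fun d hd hdM => (key d hd hdM).1

end primes

end Pool.Agent.Q126.PP
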