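import Pool.Agent.Q126.PP.Primes

/-!
The number of the squarefree polynomials of degree `m` over a finite field all of whose prime factors
are inert in the cubic extension given by `-g`.
-/

set_option autoImplicit false
set_option linter.all false

open Finset Filter Topology Polynomial

namespace Pool.Agent.Q126.PP

section

variable {k : Type} [Field k]

/-- squarefree, with all prime factors inert and of degree at least `N` -/
def AllInert (g : k[X]) (N : ℕ) (D : k[X]) : Prop :=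
  Squarefree D ∧ ∀ P : k[X], Irreducible P → P ∣ D → N ≤ P.natDegree ∧ Irreducible (P.comp (-g))

theorem comp_irr {P Q g : k[X]} (h : Associated P Q) (hP : Irreducible (P.comp g)) :
    Irreducible (Q.comp g) := by
  obtain ⟨u, hu⟩ := h
  rw [← hu, mul_comp]
  have h1 : IsUnit ((u : k[X]).comp g) := u.isUnit.map (compRingHom g)
  exact (irreducible_mul_isUnit h1).2 hP

theorem prod_sq {S : Finset k[X]} (hS : ∀ P ∈ S, P.Monic ∧ Irreducible P) :
    Squarefree (∏ P ∈ S, P) := by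
  apply Finset.squarefree_prod_of_pairwise_isCoprime
  · intro P hP Q hQ hPQ
    have h1 := hS P hP
    have h2 := hS Q hQ
    show IsRelPrime P Q
    refine (h1.2.coprime_iff_not_dvd.2 ?_).isRelPrime
    intro h3
    exact hPQ (eq_of_monic_of_associated h1.1 h2.1 (h1.2.associated_of_dvd h2.2 h3))
  · intro P hP
    exact (hS P hP).2.squarefree

theorem prod_fac {S : Finset k[X]} (hS : ∀ P ∈ S, P.Monic ∧ Irreducible P) {Q : k[X]}
    (hQ : Irreducible Q) (h : Q ∣ ∏ P ∈ S, P) : ∃ P ∈ S, Associated Q P := by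
  obtain ⟨P, hP, h1⟩ := (Prime.dvd_finset_prod_iff hQ.prime _).1 h
  exact ⟨P, hP, hQ.associated_of_dvd (hS P hP).2 h1⟩

theorem prod_inj {S T : Finset k[X]} (hS : ∀ P ∈ S, P.Monic ∧ Irreducible P)
    (hT : ∀ P ∈ T, P.Monic ∧ Irreducible P) (h : ∏ P ∈ S, P = ∏ P ∈ T, P) : S = T := by
  have key : ∀ S T : Finset k[X], (∀ P ∈ S, P.Monic ∧ Irreducible P) →
      (∀ P ∈ T, P.Monic ∧ Irreducible P) → ∏ P ∈ S, P = ∏ P ∈ T, P → S ⊆ T := by
    intro S T hS hT h P hP
    have h1 : P ∣ ∏ P ∈ T, P := by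
      rw [← h]
      exact Finset.dvd_prod_of_mem _ hP
    obtain ⟨Q, hQ, h2⟩ := prod_fac hT (hS P hP).2 h1
    rwa [eq_of_monic_of_associated (hS P hP).1 (hT Q hQ).1 h2]
  exact Finset.Subset.antisymm (key S T hS hT h) (key T S hT hS h.symm)

theorem allInert_prod {g : k[X]} {S : Finset k[X]} (hS : ∀ P ∈ S, P.Monic ∧ Irreducible P)
    {N : ℕ} (hg : ∀ P ∈ S, N ≤ P.natDegree ∧ Irreducible (P.comp g)) :
    AllInert g N ((∏ P ∈ S, P).comp (-X)) := by
  have inv : ∀ f : k[X], (f.comp (-X)).comp (-X) = f := fun f => comp_neg_X_comp_neg_X f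
  have dv : ∀ {f h : k[X]}, f ∣ h → f.comp (-X) ∣ h.comp (-X) := fun {f h} hd =>
    map_dvd (compRingHom (-X)) hd
  have un : ∀ {f : k[X]}, IsUnit (f.comp (-X)) → IsUnit f := fun {f} hu => by
    have h1 := hu.map (compRingHom (-X : k[X]))
    have h2 : (compRingHom (-X)) (f.comp (-X)) = f := inv f
    rwa [h2] at h1
  refine ⟨?_, ?_⟩
  · intro x hx
    apply un
    apply prod_sq hS
    have h1 := dv hx
    rwa [inv, mul_comp] at h1
  · intro Q hQ hQD
    have h1 := dv hQD
    rw [inv] at h1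
    have hQ' : Irreducible (Q.comp (-X)) := by
      have h2 := (MulEquiv.irreducible_iff (algEquivAevalNegX (R := k)).toMulEquiv (x := Q)).2 hQ
      exact h2
    obtain ⟨P, hP, h2⟩ := prod_fac hS hQ' h1
    have h3 := comp_irr h2.symm (hg P hP).2
    have h4 : (Q.comp (-X)).comp g = Q.comp (-g) := by
      rw [comp_assoc, neg_comp, X_comp]
    rw [h4] at h3
    refine ⟨?_, h3⟩
    have h5 : (Q.comp (-X)).natDegree = P.natDegree := natDegree_eq_of_degree_eq
      (degree_eq_degree_of_associated h2)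
    rw [natDegree_comp, natDegree_neg, natDegree_X, mul_one] at h5
    rw [h5]
    exact (hg P hP).1

end

section count

variable {k : Type} [Field k] [Finite k]

open Classical in
/-- **The number of the products of inert primes.** -/
theorem count_inert (h2 : (2 : k) ≠ 0) (h3 : (3 : k) ≠ 0) {g : k[X]} (hg : g.Monic)
    (hg3 : g.natDegree = 3) (hab : g.coeff 2 ^ 2 ≠ 3 * g.coeff 1) (N : ℕ) {θ : ℝ}
    (hθ0 : 0 < θ) (hθ : θ < 1 / 3) : ∃ c : ℝ, 0 < c ∧ ∃ m₀ : ℕ, ∀ m, m₀ ≤ m →
      c * (m : ℝ) ^ (θ - 1) * (Nat.card k : ℝ) ^ m ≤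
        ({D : k[X] | D.natDegree = m ∧ AllInert g N D}.ncard : ℝ) := by
  have hq : 2 ≤ Nat.card k := Finite.one_lt_card
  have hqR : (2 : ℝ) ≤ Nat.card k := by exact_mod_cast hq
  set γ := (θ + 1 / 3) / 2 with hγ
  have hγ1 : γ < 1 / 3 := by rw [hγ]; linarith
  have hγθ : θ < γ := by rw [hγ]; linarith
  have hγ0 : 0 < γ := hθ0.trans hγθ
  obtain ⟨J₀, hJ₀⟩ := bw_bounds h2 h3 hg hg3 hab hγ1
  obtain ⟨n₀, hn₀⟩ := pow_unbounded_of_one_lt (4 / γ) (one_lt_two : (1 : ℝ) < 2)
  set J := max (J₀ + 1 + N) n₀ with hJ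
  have hJq : 4 ≤ γ * (Nat.card k : ℝ) ^ J := by
    have h4 : (2 : ℝ) ^ n₀ ≤ (Nat.card k : ℝ) ^ J :=
      (pow_le_pow_left₀ (by norm_num) hqR _).trans
        (pow_le_pow_right₀ (by linarith) (le_max_right _ _))
    have h5 := hn₀.le.trans h4
    rw [div_le_iff₀ hγ0] at h5
    linarith
  have hJ1 : 1 ≤ J := le_trans (by omega) (le_max_left (J₀ + 1 + N) n₀)
  have hJJ : J₀ ≤ J := le_trans (by omega) (le_max_left (J₀ + 1 + N) n₀)
  have hJN : N ≤ J := le_trans (by omega) (le_max_left (J₀ + 1 + N) n₀)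
  obtain ⟨c, hc, hmany⟩ := many_subsets hqR hθ0 hγθ (by linarith) hJ1 hJq
  refine ⟨c, hc, J, ?_⟩
  intro m hm
  obtain ⟨hu, hl⟩ := hJ₀ J hJJ m
  have h4 := hmany k[X] (inertSet_finite g J m).toFinset natDegree m (by
    intro P hP
    rw [Set.Finite.mem_toFinset] at hP
    exact hP.2.2.2.1) (by convert hu) (by convert hl) m hm le_rfl
  refine h4.trans ?_
  unfold cnt
  rw [← Set.ncard_coe_finset]
  have hfin : {D : k[X] | D.natDegree = m ∧ AllInert g N D}.Finite :=
    (finite_le' m).subset fun D hD => hD.1.le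
  have hmem : ∀ S : Finset k[X], S ⊆ (inertSet_finite g J m).toFinset →
      (∀ P ∈ S, P.Monic ∧ Irreducible P) ∧
        ∀ P ∈ S, N ≤ P.natDegree ∧ Irreducible (P.comp g) := by
    intro S hS
    constructor
    · intro P hP
      have h5 := hS hP
      rw [Set.Finite.mem_toFinset] at h5
      exact ⟨h5.1, h5.2.1⟩
    · intro P hP
      have h5 := hS hP
      rw [Set.Finite.mem_toFinset] at h5
      exact ⟨hJN.trans h5.2.2.2.1, h5.2.2.1⟩
  have hle := Set.ncard_le_ncard_of_injOn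
    (s := (((inertSet_finite g J m).toFinset.powerset.filter
      (fun S => ∑ a ∈ S, natDegree a = m) : Finset (Finset k[X])) : Set (Finset k[X])))
    (t := {D : k[X] | D.natDegree = m ∧ AllInert g N D})
    (fun S => (∏ P ∈ S, P).comp (-X)) ?_ ?_ hfin
  · exact_mod_cast hle
  · intro S hS
    rw [Finset.coe_filter] at hS
    obtain ⟨h5, h6⟩ := hS
    rw [mem_powerset] at h5
    obtain ⟨h7, h8⟩ := hmem S h5
    refine ⟨?_, allInert_prod h7 h8⟩
    show ((∏ P ∈ S, P).comp (-X)).natDegree = m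
    rw [natDegree_comp, natDegree_neg, natDegree_X, mul_one,
      natDegree_prod_of_monic _ _ fun P hP => (h7 P hP).1, h6]
  · intro S hS T hT h
    rw [Finset.coe_filter] at hS hT
    have h5 := mem_powerset.1 hS.1
    have h6 := mem_powerset.1 hT.1
    have h7 := congrArg (fun p : k[X] => p.comp (-X)) h
    simp only [comp_neg_X_comp_neg_X] at h7
    exact prod_inj (hmem S h5).1 (hmem T h6).1 h7

end count

end Pool.Agent.Q126.PP
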